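import Pool.Agent.H987.Y.Main
import Pool.Agent.H383.Z987.Word
import Pool.Agent.H284.Z987.Hutri
import Pool.Agent.H271.Z987.Lln
import Pool.Agent.H628.Z987.Star
import Pool.Agent.H784.Z987.Mom
import Pool.Agent.H194.Z987.Conv
import Pool.Agent.H304.Z987.Green
import Pool.Agent.H734.Z987.Free1
import Pool.Agent.H548.Z987.Free2
import Pool.Agent.H383.Z987.Free3
import Pool.Agent.H121.Z987.Loc
import Pool.Agent.H168.Y987.Op
import Pool.Agent.H168.Y987.Kact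
import Pool.Agent.H215.Y987.Eqv
import Pool.Agent.H800.Y987.Meas
import Pool.Agent.H410.Y987.Troot
import Pool.Agent.H588.Y987.Tsplit
import Pool.Agent.H588.Y987.Dig
import Pool.Agent.H796.Y987.Sep
import Pool.Agent.H788.Y987.Free
import Pool.Agent.H757.Y987.Cov
import Pool.Agent.H295.Y987.Ac2
import Pool.Agent.H578.Y987.Tile
import Pool.Agent.H323.Y987.Fold
import Pool.Agent.H297.Y987.Net
import Pool.Agent.H909.Y987.Closek
import Pool.Agent.H795.Y987.Boot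
import Pool.Agent.H332.Y987.HullA
import Pool.Agent.H825.Y987.HullB
import Pool.Agent.H582.Y987.Pow

/-! Project Y: assembly. -/

set_option autoImplicit false

open scoped BigOperators
open MeasureTheory

namespace Pool.Agent.H987.Y

open Pool.Agent.Y662.TR (dv)
open Pool.Agent.H987.Z (SqS IsSp)

/-- **the theorem, without hypotheses** -/
theorem fin_lattice (d : ℕ) (hd : 1 ≤ d) (α β : ℝ) (hα : 0 < α) (hαβ : α ≤ β) (hβ : β < 4 * d)
    (h2 : d = 2 → β < 4 ∨ 4 < α) (ε : ℝ) (hε : 0 < ε) :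
    ∃ lam0 : ℝ, 0 < lam0 ∧ ∀ (μ : Measure ℝ) [IsProbabilityMeasure μ], (∀ᵐ s ∂μ, |s| ≤ 1) →
    ∃ A : (Fin d → ℤ) → (Fin d → ℤ) → ℝ,
      (∀ x y, 0 ≤ A x y) ∧ (∀ x y, A x y = A y x) ∧
      (∀ x, (Summable fun y => A x y) ∧ ∑' y, A x y ≤ ε) ∧
      (∀ p : ℝ, 0 < p → ∃ S : ℝ, ∀ x, (Summable fun y => A x y ^ p) ∧ ∑' y, A x y ^ p ≤ S) ∧
      (∀ δ : ℝ, 0 < δ → ∃ (N R : ℕ) (B : (Fin d → ℤ) → (Fin d → ℤ) → ℝ), 0 < N ∧
        (∀ x y v, B (x + (N : ℤ) • v) (y + (N : ℤ) • v) = B x y) ∧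
        (∀ x y, B x y ≠ 0 → ∀ i, |x i - y i| ≤ R) ∧
        ∀ x, (Summable fun y => |A x y - B x y|) ∧ ∑' y, |A x y - B x y| ≤ δ) ∧
      (∀ᵐ lam ∂(volume.restrict (Set.Ioc 0 lam0)),
        ∀ᵐ ω ∂(Measure.infinitePi fun _ : Fin d → ℤ => μ),
          (∀ f : (Fin d → ℤ) → ℂ, SqS f → ∃ m : Measure ℝ, IsSp (HamY A lam ω) f m) ∧
          (∀ (f : (Fin d → ℤ) → ℂ) (m : Measure ℝ), SqS f → IsSp (HamY A lam ω) f m →
            ∀ E : Set ℝ, E ⊆ Set.Icc α β → volume E = 0 → m E = 0) ∧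
          (∀ (x : Fin d → ℤ) (m : Measure ℝ), IsSp (HamY A lam ω) (fun y => dv x y) m →
            ∀ E : Set ℝ, E ⊆ Set.Icc α β → MeasurableSet E → m E = 0 → volume E = 0)) ∧
      (∀ D : ℝ, 0 < D → (∀ E : Set ℝ, MeasurableSet E → μ E ≤ ENNReal.ofReal D * volume E) →
        ∃ lam1 : ℝ, 0 < lam1 ∧ ∀ lam : ℝ, lam1 ≤ lam →
        ∀ᵐ ω ∂(Measure.infinitePi fun _ : Fin d → ℤ => μ),
          (∀ f : (Fin d → ℤ) → ℂ, SqS f → ∃ m : Measure ℝ, IsSp (HamY A lam ω) f m) ∧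
          (∀ (f : (Fin d → ℤ) → ℂ) (m : Measure ℝ), SqS f → IsSp (HamY A lam ω) f m →
            ∃ E : Set ℝ, E.Countable ∧ m Eᶜ = 0)) := by
  have hc := Pool.Agent.H194.Z987.conv
  have hg := Pool.Agent.H304.Z987.green
  have h1 := Pool.Agent.H284.Z987.hutri
  have hop := Pool.Agent.H168.Y987.op
  have heqv := Pool.Agent.H215.Y987.eqv hop
  have hmeas := Pool.Agent.H800.Y987.meas hop
  have htr := Pool.Agent.H410.Y987.troot hop
  have hfree := Pool.Agent.H788.Y987.free hop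
  have hA := Pool.Agent.H332.Y987.hullA hfree
  have hsep := Pool.Agent.H796.Y987.sep
  have hdig := Pool.Agent.H588.Y987.dig
  exact main_lattice hop hmeas Pool.Agent.H295.Y987.ac2 hg
    (Pool.Agent.H795.Y987.bootk h1 Pool.Agent.H271.Z987.lln Pool.Agent.H628.Z987.star hg hop hmeas
      htr Pool.Agent.H588.Y987.tsplit)
    (Pool.Agent.H909.Y987.closek hop htr)
    (Pool.Agent.H297.Y987.net hop heqv hmeas htr hsep (Pool.Agent.H757.Y987.cov hop htr)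
      (Pool.Agent.H323.Y987.fold Pool.Agent.H578.Y987.tile Pool.Agent.H383.Z987.word) hg
      Pool.Agent.H784.Z987.mom h1)
    hfree hsep hdig hA
    (Pool.Agent.H825.Y987.hullB hA hdig heqv hmeas hop hg hsep)
    Pool.Agent.H582.Y987.pow Pool.Agent.H168.Y987.kact (Pool.Agent.H734.Z987.free1 hc hg)
    (Pool.Agent.H548.Z987.free2 hc hg) (Pool.Agent.H383.Z987.free3 hc hg)
    Pool.Agent.H121.Z987.loc d hd α β hα hαβ hβ h2 ε hε

end Pool.Agent.H987.Y
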