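import Pool.Agent.H987.Y.Defs
import Pool.Graph.R_seed8.TH369.MU.Defs

/-! Project Y, statements, part A (kernels, trees, measures). -/

set_option autoImplicit false

open scoped BigOperators InnerProductSpace Topology
open Filter MeasureTheory

namespace Pool.Agent.H987.Y

open Pool.Agent.Y662.TR (LL Cf Mw dv hu clp)
open Pool.Agent.TH369.AN (Rz)
open Pool.Agent.H987.Z (Rs Gr Fr gZ HV)

/-- **K1 (kernel operators).** Proof. Schur's test: for `u` in `ℓ²`, Cauchy-Schwarz gives
`(∑_y |k x y| |u y|)² ≤ h ∑_y |k x y| |u y|²`, and summing over `x` (with the symmetry of `k`)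
`∑_x (∑_y |k x y| |u y|)² ≤ h² ‖u‖²`; so `u ↦ (x ↦ ∑' y, k x y u y)` is a bounded operator with norm at most
`h` (`LinearMap.mkContinuous`), which shows that the first alternative in the definition of `Op` holds, and
`Op k` is determined by its action. Self-adjointness and `bil`: `∑_x ∑_y |k x y| |u y| |v x| < ∞`, Fubini.
`Op k - Op k'` acts as `Op (k - k')` does; the same for `Op (k + dg V) = Op k + Mw 1 V` (the action of `Mw 1 V`
is `Mw_apply`-like: multiplication by `clp 1 (V x)`), hence the third item. -/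
def S_op : Prop :=
  ∀ (ι : Type) (k : ι → ι → ℝ) (h : ℝ), Ker h k →
    (∀ (u : LL ι) (x : ι), (Summable fun y => ((k x y : ℝ) : ℂ) * u y) ∧
      Op k u x = ∑' y, ((k x y : ℝ) : ℂ) * u y) ∧
    ‖Op k‖ ≤ h ∧ Rs (Op k) ∧
    (∀ V : ι → ℝ, Ker (h + 1) (fun x y => k x y + dg V x y) ∧
      Op (fun x y => k x y + dg V x y) = HV (Op k) V) ∧
    ∀ (k' : ι → ι → ℝ) (h' δ : ℝ), Ker h' k' → Ker δ (fun x y => k x y - k' x y) →
      ‖Op k - Op k'‖ ≤ δ

/-- **K2 (change of coordinates).** Proof. The unitary `u ↦ u ∘ e` intertwines the two operators; use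
`rz_uniq` (library) and `S_op`. -/
def S_eqv : Prop :=
  ∀ (ι κ : Type) (e : ι ≃ κ) (k : κ → κ → ℝ) (h : ℝ), Ker h k →
    Ker h (fun x y => k (e x) (e y)) ∧
    ∀ (z : ℂ) (x y : ι), z.im ≠ 0 →
      Gr (Op fun x y => k (e x) (e y)) z x y = Gr (Op k) z (e x) (e y)

/-- **K3 (measurability).** Proof. With `D = -i z + i T` (see `S_mom` and its proof
`Pool.Agent.H784.Z987.Mom`): `Rz T z` is `i D⁻¹`, `D⁻¹ = (1/s) ∑_k (1 - D/s)^k` with the norm convergence uniform
in `ω`; so `Gr (Op (k ω)) z x y` is a limit of polynomials in the numbers `(Op (k ω) ^ j) (dv y) x`, and these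
are measurable in `ω` by induction on `j`: `T^(j+1) u (x) = ∑' w, k ω x w (T^j u)(w)`, a countable sum of
measurable functions (`Measurable.tsum` or a limit over finite sets). -/
def S_meas : Prop :=
  ∀ (ι Ω : Type) [Countable ι] [MeasurableSpace Ω] (k : Ω → ι → ι → ℝ) (h : ℝ),
    (∀ ω, Ker h (k ω)) → (∀ x y, Measurable fun ω => k ω x y) →
    ∀ (z : ℂ) (x y : ι), z.im ≠ 0 → Measurable fun ω => Gr (Op (k ω)) z x y

open Classical in
/-- **K4 (the tree).** (1) Row sums: the sheet, at most `n + 1` children (for given `v` and `j` there is one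
`v'` with the label `j`) and at most one parent (`v.1 = (v'.2, j) :: v'.1` determines `v'`). (2) The equation
of the root sheet, adaptation of `S_root` (proved in `Pool.Agent.H30.Z987.Tree`): `φ x = G(([],x), root)`
satisfies `∑_y k (W []) x y φ y + a ∑_{j allowed} G(([(x,j)], o), root) - z φ x = dv o x`, and in the branch
`i = (x, j)` the restriction `v ↦ G((v.1 ++ [i], v.2), root)` solves `(Op (kB k false o a (br i W)) - z) u =
- a φ x dv ([], o)`, so its value at the base point is `- a φ x GB k false o a (br i W) z`. (The labels allowed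
at `(v.1 ++ [i], v.2)` are those allowed at `v` for `f = false`.) -/
def S_troot : Prop :=
  ∀ (X Ω : Type) (n : ℕ) (k : Ω → X → X → ℝ) (h : ℝ), (∀ ω, Ker h (k ω)) →
    ∀ (f : Bool) (o : X) (a : ℝ) (W : List (Ix X n) → Ω),
    Ker (h + |a| * (n + 2)) (kB k f o a W) ∧
    ∀ z : ℂ, z.im ≠ 0 → ∃ φ : LL X, (∀ x, φ x = Gr (Op (kB k f o a W)) z ([], x) ([], o)) ∧
      ∀ x, Op (k (W [])) φ x - (z + (a : ℂ) ^ 2 * ∑ j : Fin (n + 1),
        (if al f o (([] : List (Ix X n)), x) j then GB k false o a (br (x, j) W) z else 0)) * φ x =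
          dv o x

/-- **K5 (splitting the product measure).** Adaptation of `S_split` (proved in
`Pool.Agent.H282.Z987.Split`). The map `q ↦ gl q.1 q.2` only permutes coordinates:
`Option`/`Sum` index `[]` or `(i, l') ↔ l' ++ [i]`. -/
def S_tsplit : Prop :=
  ∀ (X Ω : Type) [Countable X] [MeasurableSpace Ω] (n : ℕ) (P : Measure Ω) [IsProbabilityMeasure P],
    (∀ (ω : Ω) (w : Ix X n → List (Ix X n) → Ω), gl ω w [] = ω) ∧
    (∀ (ω : Ω) (w : Ix X n → List (Ix X n) → Ω) (i : Ix X n), br i (gl ω w) = w i) ∧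
    (Measurable fun q : Ω × (Ix X n → List (Ix X n) → Ω) => gl q.1 q.2) ∧
    (P.prod (Measure.infinitePi fun _ : Ix X n => Measure.infinitePi fun _ : List (Ix X n) => P)).map
      (fun q => gl q.1 q.2) = Measure.infinitePi fun _ : List (Ix X n) => P

/-- **K6 (separating phases and potentials).** The environment with phases `p l` and potentials
`v (l, x)`. Both sides agree on boxes (`Measure.eq_infinitePi`; reduce boxes in `Om d N` to products via
`Measure.prod` uniqueness, or compose known facts: `infinitePi` of products is the product of the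
`infinitePi`, and currying `Vt → ℝ` as `List → Lt d → ℝ`). -/
def S_sep : Prop :=
  ∀ (d N n : ℕ) (ν : Measure ℝ) [IsProbabilityMeasure ν], 0 < N →
    IsProbabilityMeasure (unif (Ph d N)) ∧ IsProbabilityMeasure (PO d N ν) ∧
    (Measurable fun q : (List (Ix (Lt d) n) → Ph d N) × (Vt (Lt d) n → ℝ) =>
      fun l : List (Ix (Lt d) n) => ((q.1 l, fun x => q.2 (l, x)) : Om d N)) ∧
    ((Measure.infinitePi fun _ : List (Ix (Lt d) n) => unif (Ph d N)).prod
      (Measure.infinitePi fun _ : Vt (Lt d) n => ν)).map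
      (fun q => fun l : List (Ix (Lt d) n) => ((q.1 l, fun x => q.2 (l, x)) : Om d N)) =
      Measure.infinitePi fun _ : List (Ix (Lt d) n) => PO d N ν

/-- **K7 (the free Green function).** `gZ d z = Gr (KT (b0 id)) z 1 1` on `Multiplicative (Fin d → ℤ)`; the
operator `KT (b0 id)` has the kernel `kf d` (`(KT b u)(x) = ∑' s, b s u(x s)`, `S_conv`), up to the identification
of `Multiplicative (Fin d → ℤ)` with `Fin d → ℤ`; use `rz_uniq`. The row sums of `kf d` are at most `4 d`. -/
def S_free : Prop :=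
  ∀ d : ℕ, Ker (4 * d) (kf d) ∧ Net 1 1 (4 * d) (kf d) ∧
    (∀ x y v : Lt d, kf d (x + v) (y + v) = kf d x y) ∧
    ∀ z : ℂ, z.im ≠ 0 → Gr (Op (kf d)) z 0 0 = gZ d z

/-- **K8 (the tree is a local cover of the network).** Adaptation of `S_cover` (StC.lean; proved in
`Pool.Agent.H123.Z987.Cover`).

Proof. Let `Y = pos σ X`, `c = col l` the colour of the bond by which the sheet `l` is reached. The labels `j`
allowed at the vertex `(l, x)` correspond, by `j ↦ lab (col l) x j`, to all colours if `x ≠ 0` or `l = []`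
(`col [] = 0`, so `lab` is the identity there), and to all colours except `col l` if `x = 0`, `l ≠ []`; the
missing colour belongs to the bond to the parent `(l', u)`, `l = (u, j') :: l'`:
`σ (col l) (Y (l, 0)) = σ c (σ c (bs l' + u)) = Y (l', u)`. The child `((x, j) :: l, 0)` of `(l, x)` has
`Y = σ (lab (col l) x j) (Y (l, x))`. The neighbours of a good vertex of order `r` are good of order `r + 1` (the
range of `t` is `R`). For a good vertex `(l, x)` and all `x'`:
`kN t (W l) x' x = t (x' + ph p) (x + ph p) + dg .. = (t + dg V') (bs l + x') (bs l + x)` if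
`p = (W l).1` is `bs l` modulo `N` (periodicity of `t`) and, for the diagonal part, `V' (Y (l,x)) = (W l).2 x`.
So, `P` = push forward by `Y` of finitely supported functions (`Finsupp.mapDomain`, or sums over fibres),
`P (H δ_v) = H' δ_{Y v}` for good `v` of order `< t0` (`≤ t0`), where `H`, `H'` are the two operators; by
induction `H'^m δ_X = P (H^m δ_root)` and `H^m δ_root` is supported in the good vertices of order `m`, for
`m ≤ t0`. Since `Y` is injective on the good vertices of order `t0`, the value at `X = Y root` is the value of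
`H^m δ_root` at the root. -/
def S_cov : Prop :=
  ∀ (d N R n t0 : ℕ) (t : Lt d → Lt d → ℝ) (h a : ℝ) (σ : Fin (n + 1) → Lt d → Lt d) (X : Lt d)
    (W : List (Ix (Lt d) n) → Om d N) (V' : Lt d → ℝ), Net N R h t → (∀ j x, σ j (σ j x) = x) →
    Set.InjOn (pos σ X) {v | gV R t0 v} →
    (∀ l, gL R t0 l → ∃ w : Lt d, bs σ X l = ph (W l).1 + (N : ℤ) • w) →
    (∀ v, gV R t0 v → (W v.1).2 v.2 = V' (pos σ X v)) →
    ∀ m ≤ t0, (Op (kB (kN t) true (0 : Lt d) a W) ^ m) (dv (([] : List (Ix (Lt d) n)), 0)) ([], 0) =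
      (Op (fun x y => t x y + a * kσ σ x y + dg V' x y) ^ m) (dv X) X

/-- **K9 (digits).** Proof. Induction on `n`: the joint law of the first `n` digits is uniform on the
product, `(u k)_{k < n} ↦ hd n u` is a bijection onto the box `[0, pQ Q n)^d` (mixed radix expansion;
for the step: `Fin d → Fin (N * Q)` is in bijection with pairs via `finProdFinEquiv`), so `hd n u` is uniform on
the box; and for a periodic `F` the average of `F (· + x)` over the box equals the average of `F`. -/
def S_dig : Prop :=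
  ∀ (d : ℕ) (Q : ℕ → ℕ), (∀ k, 0 < Q k) → IsProbabilityMeasure (PH d Q) ∧
    (∀ n, Measurable fun u : Hu d Q => hd n u) ∧
    ∀ (n : ℕ) (F : Lt d → ℝ), (∀ x v : Lt d, F (x + (pQ Q n : ℤ) • v) = F x) → ∀ x : Lt d,
      ∫ u, F (hd n u + x) ∂(PH d Q) = ∫ h, F (ph h) ∂(unif (Ph d (pQ Q n)))

/-- **K10 (absolutely continuous spectrum from moments, for random operators).** The same as `S_ac`
(StB.lean; proved in `Pool.Agent.H230.Z987.Ac`) with `HV T (V ω)` replaced by a random operator: the only
properties of the potential used there are the measurability in `ω` of the Green functions, the norm bound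
and the self-adjointness. -/
def S_ac2 : Prop :=
  ∀ (ι Ω : Type) [Countable ι] [MeasurableSpace Ω] (P : Measure Ω) [IsProbabilityMeasure P]
    (T : Ω → (LL ι →L[ℂ] LL ι)) (h : ℝ) (g : ℂ → ℂ) (α β c C e : ℝ), (∀ ω, IsSelfAdjoint (T ω)) →
    (∀ ω, ‖T ω‖ ≤ h) → (∀ (z : ℂ) (x y : ι), z.im ≠ 0 → Measurable fun ω => Gr (T ω) z x y) →
    ContinuousOn g {z | 0 < z.im} → 0 < c →
    (∀ z : ℂ, α < z.re → z.re < β → 0 < z.im → z.im ≤ 1 → c ≤ (g z).im ∧ ‖g z‖ ≤ C) →
    (∀ z : ℂ, α < z.re → z.re < β → 0 < z.im → z.im ≤ 1 → ∀ x : ι,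
      ∫ ω, hu (Gr (T ω) z x x) (g z) ^ 2 ∂P ≤ e) →
    ∀ᵐ ω ∂P,
      (∀ (φ : LL ι) (m : Measure ℝ), Pool.Agent.TH369.MU.SpM (T ω) φ m →
        ∀ A : Set ℝ, A ⊆ Set.Ioo α β → volume A = 0 → m A = 0) ∧
      (∀ (x : ι) (m : Measure ℝ), Pool.Agent.TH369.MU.SpM (T ω) (dv x) m →
        ∀ A : Set ℝ, A ⊆ Set.Ioo α β → MeasurableSet A → m A = 0 → volume A = 0)

end Pool.Agent.H987.Y
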