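import Pool.Agent.H987.Z.StD

/-! Project Y (networks on the lattice): definitions. -/

set_option autoImplicit false
set_option linter.unusedSectionVars false

open scoped BigOperators InnerProductSpace Topology
open Filter MeasureTheory

namespace Pool.Agent.H987.Y

open Pool.Agent.Y662.TR (LL Cf Mw dv hu clp)
open Pool.Agent.TH369.AN (Rz)
open Pool.Agent.H987.Z (Rs Gr Fr gZ HV)

/-! ### kernel operators -/

section ker

variable {ι : Type}

/-- real symmetric kernels with row sums at most `h` -/
structure Ker (h : ℝ) (k : ι → ι → ℝ) : Prop where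
  h0 : 0 ≤ h
  sy : ∀ x y, k x y = k y x
  sm : ∀ x, Summable fun y => |k x y|
  le : ∀ x, ∑' y, |k x y| ≤ h

open Classical in
/-- the operator with kernel `k` -/
noncomputable def Op (k : ι → ι → ℝ) : LL ι →L[ℂ] LL ι :=
  if H : ∃ T : LL ι →L[ℂ] LL ι, ∀ (u : LL ι) (x : ι), T u x = ∑' y, ((k x y : ℝ) : ℂ) * u y
  then H.choose else 0

open Classical in
/-- the kernel of the potential `V`, clipped to `[-1, 1]` -/
noncomputable def dg (V : ι → ℝ) (x y : ι) : ℝ := if x = y then clp 1 (V x) else 0

end ker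

/-! ### the tree of random sheets -/

section tree

variable {X Ω : Type} {n : ℕ}

/-- the labels of the branches of a sheet -/
abbrev Ix (X : Type) (n : ℕ) : Type := X × Fin (n + 1)

/-- the vertices of the tree: list of branches (the most recent one first), position in the sheet -/
abbrev Vt (X : Type) (n : ℕ) : Type := List (Ix X n) × X

/-- the label `j` is allowed at the vertex `v`: at the base point `o` of a sheet the label `0` is
missing; for `f = true` (full tree) it is present in the root sheet -/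
def al (f : Bool) (o : X) (v : Vt X n) (j : Fin (n + 1)) : Prop :=
  ¬ ((f = true → v.1 ≠ []) ∧ v.2 = o ∧ j = 0)

open Classical in
/-- the bond from `v` to its child `v'` -/
noncomputable def bnd (f : Bool) (o : X) (v v' : Vt X n) : ℝ :=
  if v'.2 = o ∧ ∃ j, v'.1 = (v.2, j) :: v.1 ∧ al f o v j then 1 else 0

open Classical in
/-- the kernel of the tree: in the sheet `l` the kernel `k (W l)`, and bonds of strength `a` between a
vertex and the base points of its `n + 1` branches -/
noncomputable def kB (k : Ω → X → X → ℝ) (f : Bool) (o : X) (a : ℝ) (W : List (Ix X n) → Ω)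
    (v v' : Vt X n) : ℝ :=
  (if v.1 = v'.1 then k (W v.1) v.2 v'.2 else 0) + a * (bnd f o v v' + bnd f o v' v)

/-- the Green function of the tree at the root -/
noncomputable def GB (k : Ω → X → X → ℝ) (f : Bool) (o : X) (a : ℝ) (W : List (Ix X n) → Ω)
    (z : ℂ) : ℂ := Gr (Op (kB k f o a W)) z ([], o) ([], o)

/-- the environment of the branch `i` -/
def br (i : Ix X n) (W : List (Ix X n) → Ω) (l : List (Ix X n)) : Ω := W (l ++ [i])

/-- the environment with root sheet `ω` and branches `w` -/
noncomputable def gl (ω : Ω) (w : Ix X n → List (Ix X n) → Ω) (l : List (Ix X n)) : Ω := by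
  classical
  exact if h : l = [] then ω else w (l.getLast h) l.dropLast

/-- the bounds for a random sheet -/
def PK [MeasurableSpace Ω] (k : Ω → X → X → ℝ) (P : Measure Ω) (o : X) (g : ℂ → ℂ)
    (α β θ T e : ℝ) : Prop :=
  ∀ z : ℂ, α ≤ z.re → z.re ≤ β → θ ≤ z.im → z.im ≤ T →
    ∫ ω, hu (Gr (Op (k ω)) z o o) (g z) ^ 2 ∂P ≤ e

end tree

/-! ### networks on the lattice -/

section net

variable {d : ℕ}

/-- the lattice -/
abbrev Lt (d : ℕ) : Type := Fin d → ℤ

/-- the uniform distribution on a finite set -/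
noncomputable def unif (C : Type) [Fintype C] [MeasurableSpace C] : Measure C :=
  (Fintype.card C : ENNReal)⁻¹ • Measure.count

/-- the phases modulo `N` -/
abbrev Ph (d N : ℕ) : Type := Fin d → Fin N

/-- a phase as a lattice point -/
def ph {d N : ℕ} (h : Ph d N) : Lt d := fun i => ((h i : ℕ) : ℤ)

/-- networks: `N`-periodic symmetric kernels of range `R` with row sums at most `h` -/
structure Net (N R : ℕ) (h : ℝ) (t : Lt d → Lt d → ℝ) : Prop where
  ker : Ker h t
  per : ∀ x y v : Lt d, t (x + (N : ℤ) • v) (y + (N : ℤ) • v) = t x y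
  rng : ∀ x y, t x y ≠ 0 → ∀ i, |x i - y i| ≤ R

/-- the environment of a sheet of a network: the phase and the potential -/
abbrev Om (d N : ℕ) : Type := Ph d N × (Lt d → ℝ)

/-- the kernel of a sheet: the network, shifted by the phase, plus the potential -/
noncomputable def kN {N : ℕ} (t : Lt d → Lt d → ℝ) (ω : Om d N) (x y : Lt d) : ℝ :=
  t (x + ph ω.1) (y + ph ω.1) + dg ω.2 x y

/-- the law of the environment of a sheet -/
noncomputable def PO (d N : ℕ) (ν : Measure ℝ) : Measure (Om d N) :=
  (unif (Ph d N)).prod (Measure.infinitePi fun _ : Lt d => ν)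

/-- the bounds for a network (averaged over the phases) -/
def PN (N : ℕ) (t : Lt d → Lt d → ℝ) (ν : Measure ℝ) (g : ℂ → ℂ) (α β θ T e : ℝ) : Prop :=
  PK (kN (N := N) t) (PO d N ν) (0 : Lt d) g α β θ T e

open Classical in
/-- the kernel of `-Δ` -/
noncomputable def kf (d : ℕ) (x y : Lt d) : ℝ :=
  (if x = y then 2 * (d : ℝ) else 0) - ∑ i : Fin d,
    ((if y = x + Pi.single i 1 then 1 else 0) + (if y = x - Pi.single i 1 then 1 else 0))

open Classical in
/-- the kernel of the bonds `{x, σ j x}` -/
noncomputable def kσ {n : ℕ} (σ : Fin (n + 1) → Lt d → Lt d) (x y : Lt d) : ℝ :=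
  ∑ j : Fin (n + 1), if y = σ j x then 1 else 0

/-! the covering map of the tree onto the network `t + a kσ σ` -/

open Classical in
/-- the colour of the label `j` at the position `x` of a sheet reached by a bond of colour `c` -/
noncomputable def lab {n : ℕ} (c : Fin (n + 1)) (x : Lt d) (j : Fin (n + 1)) : Fin (n + 1) :=
  if x = 0 then Equiv.swap 0 c j else j

/-- the colour of the bond by which the sheet `l` is reached (`0` for the root) -/
noncomputable def col {n : ℕ} : List (Ix (Lt d) n) → Fin (n + 1)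
  | [] => 0
  | (u, j) :: l => lab (col l) u j

/-- the base point of the sheet `l` in the lattice, the root being at `X` -/
noncomputable def bs {n : ℕ} (σ : Fin (n + 1) → Lt d → Lt d) (X : Lt d) :
    List (Ix (Lt d) n) → Lt d
  | [] => X
  | (u, j) :: l => σ (lab (col l) u j) (bs σ X l + u)

/-- the covering map -/
noncomputable def pos {n : ℕ} (σ : Fin (n + 1) → Lt d → Lt d) (X : Lt d) (v : Vt (Lt d) n) : Lt d :=
  bs σ X v.1 + v.2

/-- reduced lists -/
def Rd {n : ℕ} : List (Ix (Lt d) n) → Prop
  | [] => True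
  | (u, j) :: l => (l ≠ [] → u = 0 → j ≠ 0) ∧ Rd l

/-- good lists of order `r` -/
def gL {n : ℕ} (R r : ℕ) (l : List (Ix (Lt d) n)) : Prop :=
  Rd l ∧ l.length ≤ r ∧ ∀ p ∈ l, ∀ i, |p.1 i| ≤ (r * R : ℕ)

/-- good vertices of order `r` -/
def gV {n : ℕ} (R r : ℕ) (v : Vt (Lt d) n) : Prop :=
  gL R r v.1 ∧ ∀ i, |v.2 i| ≤ (r * R : ℕ)

end net

/-! ### the hull -/

section hull

/-- the periods -/
def pQ (Q : ℕ → ℕ) (n : ℕ) : ℕ := ∏ k ∈ Finset.range n, Q k

/-- the digits -/
abbrev Hu (d : ℕ) (Q : ℕ → ℕ) : Type := (k : ℕ) → Ph d (Q k)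

/-- the phase given by the first `n` digits -/
def hd {d : ℕ} {Q : ℕ → ℕ} (n : ℕ) (u : Hu d Q) : Lt d :=
  ∑ k ∈ Finset.range n, (pQ Q k : ℤ) • ph (u k)

/-- the law of the digits -/
noncomputable def PH (d : ℕ) (Q : ℕ → ℕ) : Measure (Hu d Q) :=
  Measure.infinitePi fun k : ℕ => unif (Ph d (Q k))

/-- the network after `n` stages -/
noncomputable def tn {d : ℕ} (A : ℕ → Lt d → Lt d → ℝ) (n : ℕ) (x y : Lt d) : ℝ :=
  kf d x y + ∑ k ∈ Finset.range n, A k x y

/-- the additional kernel in the limit -/
noncomputable def tA {d : ℕ} {Q : ℕ → ℕ} (A : ℕ → Lt d → Lt d → ℝ) (u : Hu d Q) (x y : Lt d) : ℝ :=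
  ∑' k : ℕ, A k (x + hd (k + 1) u) (y + hd (k + 1) u)

end hull

end Pool.Agent.H987.Y
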