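import Pool.Agent.H987.Y.StB

/-! Project Y, statements, part C. -/

set_option autoImplicit false

open scoped BigOperators InnerProductSpace Topology
open Filter MeasureTheory

namespace Pool.Agent.H987.Y

open Pool.Agent.Y662.TR (LL Cf Mw dv hu clp)

/-- **M1 (moments of the hopping).** Proof. `tA .. u x y = ∑' k, a k * kσ (σ k) (x + hk) (y + hk)`,
`hk = hd (k + 1) u`, with nonnegative terms at most `a k (M k + 1)`. For `p ≤ 1`: `(∑' k, t_k)^p ≤ ∑' k, t_k^p` and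
`(kσ)^p ≤ kσ` (a nonnegative integer), so `(tA ..)^p ≤ ∑' k, a k ^ p * kσ (σ k) (x + hk) (y + hk)`, and the sum
over `y` of `kσ (σ k) (x + hk) (y + hk)` is `M k + 1`; for `p > 1` the values are at most
`h = ∑' k, a k (M k + 1)` and `t^p ≤ h^(p-1) t`. Compare the last item of `S_wt` (proved in
`Pool.Agent.H190.Z987.Wt`). -/
def S_pow : Prop :=
  ∀ (d : ℕ) (Q M : ℕ → ℕ) (a : ℕ → ℝ) (σ : (k : ℕ) → Fin (M k + 1) → Lt d → Lt d),
    (∀ k, 0 < a k) → (Summable fun k => a k * ((M k : ℝ) + 1)) →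
    (∀ p : ℝ, 0 < p → Summable fun k => a k ^ p * ((M k : ℝ) + 1)) →
    ∀ u : Hu d Q, (∀ x y, 0 ≤ tA (fun k x y => a k * kσ (σ k) x y) u x y) ∧
      ∀ p : ℝ, 0 < p → ∃ S : ℝ, ∀ x,
        (Summable fun y => tA (fun k x y => a k * kσ (σ k) x y) u x y ^ p) ∧
        ∑' y, tA (fun k x y => a k * kσ (σ k) x y) u x y ^ p ≤ S

/-- **M2 (the free kernel).** Elementary: finite sums of point masses. For the last item: the sum over `y`
does not depend on `x` (translation) and is finite. -/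
def S_kact : Prop :=
  ∀ d : ℕ, (∀ (u : Lt d → ℂ) (x : Lt d), (Summable fun y => ((kf d x y : ℝ) : ℂ) * u y) ∧
      ∑' y, ((kf d x y : ℝ) : ℂ) * u y =
        -∑ i : Fin d, ((u (x + Pi.single i 1) - u x) + (u (x - Pi.single i 1) - u x))) ∧
    ∃ S : ℝ, ∀ x, (Summable fun y => |kf d x y| ^ (1 / 2 : ℝ)) ∧
      ∑' y, |kf d x y| ^ (1 / 2 : ℝ) ≤ S

end Pool.Agent.H987.Y
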