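import Pool.Agent.H987.Y.It
import Pool.Agent.H987.Y.StC
import Pool.Agent.H987.Z.Main

/-! Project Y: the theorem on the lattice. -/

set_option autoImplicit false
set_option linter.unusedSectionVars false

open scoped BigOperators InnerProductSpace Topology
open Filter MeasureTheory

namespace Pool.Agent.H987.Y

open Pool.Agent.Y662.TR (LL Cf Mw dv hu hu_nonneg clp clp_eq clp_abs lmk ll_inner ll_ext
  ll_summable dv_apply sub_coord smul_coord Mw_apply add_coord)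
open Pool.Agent.TH369.AN (Rz rz_eq rz_uniq)
open Pool.Agent.TH369.MU (SpM spm_exists)
open Pool.Agent.H987.Z (Rs Gr Fr gZ HV S_green S_loc SqS IsSp sp_of of_sp free_ok S_free1 S_free2
  S_free3 Bd hu_meas)

/-- the Hamiltonian `-Δ + A + λ ω` -/
noncomputable def HamY {d : ℕ} (A : Lt d → Lt d → ℝ) (lam : ℝ) (ω : Lt d → ℝ) (u : Lt d → ℂ)
    (x : Lt d) : ℂ :=
  -∑ i : Fin d, ((u (x + Pi.single i 1) - u x) + (u (x - Pi.single i 1) - u x)) +
    ∑' y, ((A x y : ℝ) : ℂ) * u y + ((lam * ω x : ℝ) : ℂ) * u x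

section aux

variable {d : ℕ}

/-- the action of `-Δ + A` -/
theorem act (hop : S_op) (hk : S_kact) {h h' : ℝ} {A : Lt d → Lt d → ℝ} (hA : Ker h A)
    (hkA : Ker h' fun x y => kf d x y + A x y) (u : LL (Lt d)) (x : Lt d) :
    Op (fun x y => kf d x y + A x y) u x =
      -∑ i : Fin d, ((u (x + Pi.single i 1) - u x) + (u (x - Pi.single i 1) - u x)) +
        ∑' y, ((A x y : ℝ) : ℂ) * u y := by
  rw [((hop _ _ _ hkA).1 u x).2]
  have h1 := (hk d).1 (fun y => u y) x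
  have h2 := ((hop _ _ _ hA).1 u x).1
  rw [← h1.2, ← h1.1.tsum_add h2]
  refine tsum_congr fun y => ?_
  push_cast
  ring

theorem act2 (hop : S_op) (hk : S_kact) {h h' : ℝ} {A : Lt d → Lt d → ℝ} (hA : Ker h A)
    (hkA : Ker h' fun x y => kf d x y + A x y) (lam B : ℝ) (hB : |lam| ≤ |B|) (ω : Lt d → ℝ)
    (hω : ∀ x, |ω x| ≤ 1) (u : LL (Lt d)) (x : Lt d) :
    HamY A lam ω (fun y => u y) x =
      (Op (fun x y => kf d x y + A x y) + Mw B fun x => lam * ω x) u x := by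
  have h5 : (Op (fun x y => kf d x y + A x y) + Mw B fun x => lam * ω x) u x =
      Op (fun x y => kf d x y + A x y) u x + Mw B (fun x => lam * ω x) u x := rfl
  rw [h5, act hop hk hA hkA, Mw_apply]
  have h6 : |lam * ω x| ≤ |B| := by
    rw [abs_mul]
    calc |lam| * |ω x| ≤ |B| * 1 := by
          gcongr
          exact hω _
      _ = |B| := mul_one _
  rw [clp_eq h6]
  rfl

theorem bd_op {ι Ω : Type} [MeasurableSpace Ω] [Countable ι] (hop : S_op) (hm : S_meas)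
    (hg : S_green) (k : Ω → ι → ι → ℝ) (h : ℝ) (h0 : 0 ≤ h) (hk : ∀ ω, Ker h (k ω))
    (hkm : ∀ x y, Measurable fun ω => k ω x y) (z : ℂ) (hz : 0 < z.im) (x : ι) :
    Bd (fun ω => Gr (Op (k ω)) z x x) (1 / z.im) (z.im / (h + ‖z‖) ^ 2) := by
  have hz1 : 0 < ‖z‖ := hz.trans_le (Complex.im_le_norm z)
  refine ⟨hm ι Ω k h hk hkm z x x hz.ne', fun ω => ?_, by positivity, fun ω => ?_⟩
  · exact (hg ι _ (hop ι _ h (hk ω)).2.2.1).2.2.2.2.1 z x x hz
  · exact (hg ι _ (hop ι _ h (hk ω)).2.2.1).2.2.2.1 z x h hz (hop ι _ h (hk ω)).2.1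

theorem Op_dv (hop : S_op) {h : ℝ} {k : Lt d → Lt d → ℝ} (hk : Ker h k) (x y : Lt d) :
    Op k (dv y) x = ((k x y : ℝ) : ℂ) := by
  rw [((hop _ _ _ hk).1 (dv y) x).2, tsum_eq_single y]
  · rw [dv_apply, if_pos rfl, mul_one]
  · intro w hw
    rw [dv_apply, if_neg hw, mul_zero]

/-- the law of a rescaled potential -/
theorem scale_prod {X Y : Type} [Countable X] [MeasurableSpace Y] (ρ : Measure Y)
    [IsProbabilityMeasure ρ] (μ : Measure ℝ) [IsProbabilityMeasure μ] (lam : ℝ)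
    (F : Y × (X → ℝ) → ℝ) (hF : Measurable F) :
    ∫ q, F q ∂(ρ.prod (Measure.infinitePi fun _ : X => μ.map fun t => lam * t)) =
      ∫ q, F (q.1, fun x => lam * q.2 x) ∂(ρ.prod (Measure.infinitePi fun _ : X => μ)) := by
  have hm : Measurable fun t : ℝ => lam * t := by fun_prop
  have h1 := Measure.infinitePi_map_pi (μ := fun _ : X => μ) (f := fun (_ : X) (t : ℝ) => lam * t)
    (fun _ => hm)
  have h2 : Measurable fun (ω : X → ℝ) (x : X) => lam * ω x :=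
    measurable_pi_iff.2 fun x => measurable_const.mul (measurable_pi_apply x)
  have h3 := Measure.map_prod_map ρ (Measure.infinitePi fun _ : X => μ) measurable_id h2
  rw [Measure.map_id] at h3
  rw [← h1, h3, integral_map (measurable_id.prodMap h2).aemeasurable hF.aestronglyMeasurable]
  rfl

theorem meas_dg (x y : Lt d) : Measurable fun V : Lt d → ℝ => dg V x y := by
  unfold dg
  by_cases hxy : x = y
  · simp only [if_pos hxy]
    have h1 : Measurable fun v : ℝ => clp 1 v := by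
      unfold clp
      fun_prop
    exact h1.comp (measurable_pi_apply x)
  · simp only [if_neg hxy]
    exact measurable_const

section fam

variable {Y : Type} [MeasurableSpace Y] (K : Y → Lt d → Lt d → ℝ)

/-- the family of kernels with potentials -/
noncomputable def kq (q : ℝ × Y × (Lt d → ℝ)) (x y : Lt d) : ℝ :=
  K q.2.1 x y + dg (fun x => q.1 * q.2.2 x) x y

/-- the family of kernels with potentials -/
noncomputable def kr (q : Y × (Lt d → ℝ)) (x y : Lt d) : ℝ := K q.1 x y + dg q.2 x y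

theorem ker_kq (hop : S_op) {h : ℝ} (hK : ∀ y, Ker h (K y)) (q : ℝ × Y × (Lt d → ℝ)) :
    Ker (h + 1) (kq K q) := ((hop _ _ _ (hK q.2.1)).2.2.2.1 _).1

theorem ker_kr (hop : S_op) {h : ℝ} (hK : ∀ y, Ker h (K y)) (q : Y × (Lt d → ℝ)) :
    Ker (h + 1) (kr K q) := ((hop _ _ _ (hK q.1)).2.2.2.1 _).1

theorem meas_kq (hKm : ∀ x x', Measurable fun y => K y x x') (x y : Lt d) :
    Measurable fun q => kq K q x y := by
  unfold kq
  refine Measurable.add ((hKm x y).comp (measurable_fst.comp measurable_snd)) ?_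
  have h1 : Measurable fun q : ℝ × Y × (Lt d → ℝ) => fun x : Lt d => q.1 * q.2.2 x :=
    measurable_pi_iff.2 fun w =>
      measurable_fst.mul ((measurable_pi_apply w).comp (measurable_snd.comp measurable_snd))
  exact (meas_dg x y).comp h1

theorem meas_kr (hKm : ∀ x x', Measurable fun y => K y x x') (x y : Lt d) :
    Measurable fun q => kr K q x y := by
  unfold kr
  exact ((hKm x y).comp measurable_fst).add ((meas_dg x y).comp measurable_snd)

theorem int_bound (hop : S_op) (hmeas : S_meas) (hg : S_green) (ρ : Measure Y)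
    [IsProbabilityMeasure ρ] (h : ℝ) (h0 : 0 ≤ h) (hK : ∀ y, Ker h (K y))
    (hKm : ∀ x x', Measurable fun y => K y x x') (μ : Measure ℝ) [IsProbabilityMeasure μ]
    (hμ : ∀ᵐ s ∂μ, |s| ≤ 1) (lam0 e : ℝ) (z g : ℂ) (hz : 0 < z.im) (hgi : 0 < g.im) (x : Lt d)
    (hmain : ∀ (ν : Measure ℝ) [IsProbabilityMeasure ν], (∀ᵐ t ∂ν, |t| ≤ lam0) →
      ∫ q, hu (Gr (Op (kr K q)) z x x) g ^ 2
        ∂(ρ.prod (Measure.infinitePi fun _ : Lt d => ν)) ≤ e)
    (Pl : Measure ℝ) [IsProbabilityMeasure Pl] (hPl : ∀ᵐ t ∂Pl, t ∈ Set.Ioc 0 lam0) :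
    ∫ q, hu (Gr (Op (kq K q)) z x x) g ^ 2
      ∂(Pl.prod (ρ.prod (Measure.infinitePi fun _ : Lt d => μ))) ≤ e := by
  have hb := bd_op hop hmeas hg (kq K) (h + 1) (by linarith) (ker_kq K hop hK) (meas_kq K hKm) z hz x
  have hi := hb.int2 hgi (Pl.prod (ρ.prod (Measure.infinitePi fun _ : Lt d => μ)))
  rw [integral_prod _ hi]
  have hle : ∀ᵐ t ∂Pl, ∫ r, hu (Gr (Op (kq K (t, r))) z x x) g ^ 2
      ∂(ρ.prod (Measure.infinitePi fun _ : Lt d => μ)) ≤ e := by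
    filter_upwards [hPl] with t ht
    have hνp : IsProbabilityMeasure (μ.map fun s : ℝ => t * s) :=
      Measure.isProbabilityMeasure_map (by fun_prop)
    have hν : ∀ᵐ s ∂(μ.map fun s : ℝ => t * s), |s| ≤ lam0 := by
      rw [ae_map_iff (by fun_prop) (measurableSet_le (by fun_prop) (by fun_prop))]
      filter_upwards [hμ] with s hs
      rw [abs_mul, abs_of_pos ht.1]
      have h9 : t * |s| ≤ t * 1 := mul_le_mul_of_nonneg_left hs ht.1.le
      rw [mul_one] at h9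
      exact h9.trans ht.2
    have h8 := hmain (μ.map fun s : ℝ => t * s) hν
    have hGm : Measurable fun q : Y × (Lt d → ℝ) => hu (Gr (Op (kr K q)) z x x) g ^ 2 :=
      (hu_meas (hmeas _ _ (kr K) (h + 1) (ker_kr K hop hK) (meas_kr K hKm) z x x hz.ne')
        _).pow_const 2
    rw [scale_prod ρ μ t _ hGm] at h8
    exact h8
  calc ∫ t, ∫ r, hu (Gr (Op (kq K (t, r))) z x x) g ^ 2
        ∂(ρ.prod (Measure.infinitePi fun _ : Lt d => μ)) ∂Pl ≤ ∫ _, e ∂Pl :=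
        integral_mono_ae hi.integral_prod_left (integrable_const _) hle
    _ = e := by simp

theorem ae_rearr (ρ : Measure Y) [IsProbabilityMeasure ρ] (P : Measure (Lt d → ℝ))
    [IsProbabilityMeasure P] (Pl : Measure ℝ) [IsProbabilityMeasure Pl]
    (G : ℝ × Y × (Lt d → ℝ) → Prop) (h : ∀ᵐ q ∂(Pl.prod (ρ.prod P)), G q) :
    ∀ᵐ u ∂ρ, ∀ᵐ t ∂Pl, ∀ᵐ ω ∂P, G (t, (u, ω)) := by
  have hae1 : ∀ᵐ q ∂((Pl.prod ρ).prod P), G (q.1.1, (q.1.2, q.2)) :=
    (measurePreserving_prodAssoc Pl ρ P).quasiMeasurePreserving.ae h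
  have hae2 : ∀ᵐ p ∂(Pl.prod ρ), ∀ᵐ ω ∂P, G (p.1, (p.2, ω)) :=
    Measure.ae_ae_of_ae_prod hae1
  have hae3 : ∀ᵐ p ∂(ρ.prod Pl), ∀ᵐ ω ∂P, G (p.2, (p.1, ω)) :=
    (Measure.measurePreserving_swap (μ := ρ) (ν := Pl)).quasiMeasurePreserving.ae hae2
  exact Measure.ae_ae_of_ae_prod hae3

end fam

theorem gZ_cont (hop : S_op) (hg : S_green) (hfree : S_free) (d : ℕ) :
    ContinuousOn (gZ d) {z | 0 < z.im} := by
  obtain ⟨f1, f2, f3, f4⟩ := hfree d
  have hKT := (hop _ _ _ f1).2.2.1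
  have h6 := (hg _ _ hKT).2.2.2.2.2.2.1
  intro z0 hz0'
  have hz0 : 0 < z0.im := hz0'
  rw [ContinuousWithinAt, tendsto_iff_norm_sub_tendsto_zero]
  have h7 : Tendsto (fun z : ℂ => ‖z - z0‖ / (z.im * z0.im)) (𝓝[{z | 0 < z.im}] z0)
      (𝓝 (‖z0 - z0‖ / (z0.im * z0.im))) := by
    refine Tendsto.mono_left ?_ nhdsWithin_le_nhds
    refine Tendsto.div ?_ ?_ (by positivity)
    · exact (continuous_id.sub continuous_const).norm.tendsto z0
    · exact (Complex.continuous_im.mul continuous_const).tendsto z0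
  rw [sub_self, norm_zero, zero_div] at h7
  refine squeeze_zero' (Eventually.of_forall fun z => norm_nonneg _) ?_ h7
  filter_upwards [self_mem_nhdsWithin] with z hz'
  have hz : 0 < z.im := hz'
  rw [← f4 z hz.ne', ← f4 z0 hz0.ne']
  exact h6 z z0 0 0 hz hz0

end aux

set_option maxHeartbeats 1000000 in
/-- **the theorem** -/
theorem main_lattice (hop : S_op) (hmeas : S_meas) (hac : S_ac2) (hg : S_green) (hboot : S_bootk)
    (hclose : S_closek) (hnet : S_net) (hfree : S_free) (hsep : S_sep) (hdig : S_dig)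
    (hA : S_hullA) (hB : S_hullB) (hpow : S_pow) (hkact : S_kact) (hf1 : S_free1) (hf2 : S_free2)
    (hf3 : S_free3) (hloc : S_loc)
    (d : ℕ) (hd : 1 ≤ d) (α β : ℝ) (hα : 0 < α) (hαβ : α ≤ β) (hβ : β < 4 * d)
    (h2 : d = 2 → β < 4 ∨ 4 < α) (ε : ℝ) (hε : 0 < ε) :
    ∃ lam0 : ℝ, 0 < lam0 ∧ ∀ (μ : Measure ℝ) [IsProbabilityMeasure μ], (∀ᵐ s ∂μ, |s| ≤ 1) →
    ∃ A : (Fin d → ℤ) → (Fin d → ℤ) → ℝ,
      (∀ x y, 0 ≤ A x y) ∧ (∀ x y, A x y = A y x) ∧
      (∀ x, (Summable fun y => A x y) ∧ ∑' y, A x y ≤ ε) ∧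
      (∀ p : ℝ, 0 < p → ∃ S : ℝ, ∀ x, (Summable fun y => A x y ^ p) ∧ ∑' y, A x y ^ p ≤ S) ∧
      (∀ δ : ℝ, 0 < δ → ∃ (N R : ℕ) (B : (Fin d → ℤ) → (Fin d → ℤ) → ℝ), 0 < N ∧
        (∀ x y v, B (x + (N : ℤ) • v) (y + (N : ℤ) • v) = B x y) ∧
        (∀ x y, B x y ≠ 0 → ∀ i, |x i - y i| ≤ R) ∧
        ∀ x, (Summable fun y => |A x y - B x y|) ∧ ∑' y, |A x y - B x y| ≤ δ) ∧
      (∀ᵐ lam ∂(volume.restrict (Set.Ioc 0 lam0)),
        ∀ᵐ ω ∂(Measure.infinitePi fun _ : Fin d → ℤ => μ),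
          (∀ f : (Fin d → ℤ) → ℂ, SqS f → ∃ m : Measure ℝ, IsSp (HamY A lam ω) f m) ∧
          (∀ (f : (Fin d → ℤ) → ℂ) (m : Measure ℝ), SqS f → IsSp (HamY A lam ω) f m →
            ∀ E : Set ℝ, E ⊆ Set.Icc α β → volume E = 0 → m E = 0) ∧
          (∀ (x : Fin d → ℤ) (m : Measure ℝ), IsSp (HamY A lam ω) (fun y => dv x y) m →
            ∀ E : Set ℝ, E ⊆ Set.Icc α β → MeasurableSet E → m E = 0 → volume E = 0)) ∧
      (∀ D : ℝ, 0 < D → (∀ E : Set ℝ, MeasurableSet E → μ E ≤ ENNReal.ofReal D * volume E) →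
        ∃ lam1 : ℝ, 0 < lam1 ∧ ∀ lam : ℝ, lam1 ≤ lam →
        ∀ᵐ ω ∂(Measure.infinitePi fun _ : Fin d → ℤ => μ),
          (∀ f : (Fin d → ℤ) → ℂ, SqS f → ∃ m : Measure ℝ, IsSp (HamY A lam ω) f m) ∧
          (∀ (f : (Fin d → ℤ) → ℂ) (m : Measure ℝ), SqS f → IsSp (HamY A lam ω) f m →
            ∃ E : Set ℝ, E.Countable ∧ m Eᶜ = 0)) := by
  classical
  obtain ⟨α', β', cc, CC, hα', hβ', hF⟩ := free_ok hf1 hf2 hf3 d hd α β hα hβ h2
  obtain ⟨α1, hα1⟩ : ∃ α1 : ℝ, α1 = (α + α') / 2 := ⟨_, rfl⟩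
  obtain ⟨β1, hβ1⟩ : ∃ β1 : ℝ, β1 = (β + β') / 2 := ⟨_, rfl⟩
  obtain ⟨d', rfl⟩ : ∃ d', d = d' + 1 := ⟨d - 1, by omega⟩
  obtain ⟨lam0, Q, M, R, a, σ, hl0, hl1, hQ0, hinv, ha0, hs1, hs2, hs3, hnt, hmain⟩ :=
    iterk hboot hclose hnet hfree hsep hA hB d' α1 β1 α' β' cc CC ε (by linarith) (by linarith)
      (by linarith) hF hε
  refine ⟨lam0, hl0, fun μ _ hμ => ?_⟩
  obtain ⟨Ak, hAk⟩ : ∃ Ak : ℕ → Lt (d' + 1) → Lt (d' + 1) → ℝ,
      Ak = fun k x y => a k * kσ (σ k) x y := ⟨_, rfl⟩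
  have hnt' : ∀ k, Net (pQ Q (k + 1)) (R k) (a k * (M k + 1)) (Ak k) := by
    intro k
    rw [hAk]
    exact hnt k
  obtain ⟨u1, u2, u3, u4, u5, u6⟩ := hA (d' + 1) Q Ak (fun k => a k * (M k + 1)) R hQ0 hnt' hs1
  obtain ⟨hPH, -, -⟩ := hdig (d' + 1) Q hQ0
  rw [← hAk] at hmain
  obtain ⟨h, hh⟩ : ∃ h : ℝ, h = 4 * ((d' + 1 : ℕ) : ℝ) + ∑' k, a k * ((M k : ℝ) + 1) := ⟨_, rfl⟩
  rw [← hh] at u2
  -- the random operators
  have hh0 : 0 ≤ h := by
    rw [hh]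
    have : 0 ≤ ∑' k, a k * ((M k : ℝ) + 1) := tsum_nonneg fun k => by
      have := ha0 k
      positivity
    positivity
  obtain ⟨Pl, hPl⟩ : ∃ Pl : Measure ℝ, Pl = (volume (Set.Ioc 0 lam0))⁻¹ •
      volume.restrict (Set.Ioc 0 lam0) := ⟨_, rfl⟩
  have hvol : volume (Set.Ioc 0 lam0) ≠ 0 := by
    rw [Real.volume_Ioc, sub_zero]
    simpa using hl0
  have hvol2 : volume (Set.Ioc 0 lam0) ≠ ⊤ := by
    rw [Real.volume_Ioc]
    exact ENNReal.ofReal_ne_top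
  have hPlp : IsProbabilityMeasure Pl := by
    refine ⟨?_⟩
    rw [hPl, Measure.smul_apply, Measure.restrict_apply_univ, smul_eq_mul,
      ENNReal.inv_mul_cancel hvol hvol2]
  have hPlae : ∀ {p : ℝ → Prop}, (∀ᵐ t ∂Pl, p t) ↔ ∀ᵐ t ∂(volume.restrict (Set.Ioc 0 lam0)), p t := by
    intro p
    rw [hPl, Measure.ae_ennreal_smul_measure_iff (ENNReal.inv_ne_zero.2 hvol2)]
  have hPlI : ∀ᵐ t ∂Pl, t ∈ Set.Ioc 0 lam0 := by
    rw [hPlae]
    exact ae_restrict_mem measurableSet_Ioc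
  obtain ⟨K, hKd⟩ : ∃ K : Hu (d' + 1) Q → Lt (d' + 1) → Lt (d' + 1) → ℝ,
      K = fun u x y => kf (d' + 1) x y + tA Ak u x y := ⟨_, rfl⟩
  have hK : ∀ u, Ker h (K u) := by
    rw [hKd]
    exact u2
  have hKm : ∀ x x', Measurable fun u => K u x x' := by
    intro x x'
    rw [hKd]
    exact measurable_const.add (u3 x x')
  have hmain' : ∀ (ν : Measure ℝ) [IsProbabilityMeasure ν], (∀ᵐ t ∂ν, |t| ≤ lam0) →
      ∀ z : ℂ, α1 ≤ z.re → z.re ≤ β1 → 0 < z.im → z.im ≤ 1 → ∀ x : Lt (d' + 1),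
        ∫ q, hu (Gr (Op (kr K q)) z x x) (gZ (d' + 1) z) ^ 2
          ∂((PH (d' + 1) Q).prod (Measure.infinitePi fun _ : Lt (d' + 1) => ν)) ≤ 1 / 100 := by
    rw [hKd]
    exact hmain
  have hae := hac (Lt (d' + 1)) _
    (Pl.prod ((PH (d' + 1) Q).prod (Measure.infinitePi fun _ : Lt (d' + 1) => μ)))
    (fun q => Op (kq K q)) (h + 1)
    (gZ (d' + 1)) α1 β1 cc CC (1 / 100) (fun q => (hop _ _ _ (ker_kq K hop hK q)).2.2.1.sa)
    (fun q => (hop _ _ _ (ker_kq K hop hK q)).2.1)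
    (fun z x y hz => hmeas _ _ (kq K) (h + 1) (ker_kq K hop hK) (meas_kq K hKm) z x y hz)
    (gZ_cont hop hg hfree (d' + 1))
    hF.c0 (fun z y1 y2 y3 y4 => ⟨hF.lo z (by linarith) (by linarith) y3 (by linarith),
      hF.up z (by linarith) (by linarith) y3 (by linarith)⟩)
    (fun z y1 y2 y3 y4 x => int_bound K hop hmeas hg (PH (d' + 1) Q) h hh0 hK hKm μ hμ lam0
      (1 / 100) z (gZ (d' + 1) z) y3
      (hF.c0.trans_le (hF.lo z (by linarith) (by linarith) y3 (by linarith))) x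
      (fun ν _ hν => hmain' ν hν z y1.le y2.le y3 y4 x) Pl hPlI)
  -- rearrange
  have hae4 := ae_rearr (PH (d' + 1) Q) (Measure.infinitePi fun _ : Lt (d' + 1) => μ) Pl _ hae
  obtain ⟨u, hu'⟩ := hae4.exists
  rw [hPlae] at hu'
  have hA0 := (hpow (d' + 1) Q M a σ ha0 hs1 hs3 u)
  rw [← hAk] at hA0
  obtain ⟨v1, v2⟩ := hA0
  have hbd : ∀ᵐ ω ∂(Measure.infinitePi fun _ : Lt (d' + 1) => μ), ∀ g, |ω g| ≤ 1 := by
    rw [ae_all_iff]
    intro g
    have h1 := (measurePreserving_eval_infinitePi (fun _ : Lt (d' + 1) => μ)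
      g).quasiMeasurePreserving
    exact h1.ae hμ
  have hdv : ∀ p : Lt (d' + 1), SqS (fun x => (dv p : LL (Lt (d' + 1))) x) := fun p =>
    ll_summable _
  have hsa0 := (hop _ _ _ (u2 u)).2.2.1.sa
  refine ⟨tA Ak u, v1, (u1 u).sy, fun x => ?_, v2, fun δ hδ => ?_, ?_, fun D hD hμD => ?_⟩
  · have h5 : ∀ y, |tA Ak u x y| = tA Ak u x y := fun y => abs_of_nonneg (v1 x y)
    have h6 := (u1 u).sm x
    have h7 := (u1 u).le x
    simp only [h5] at h6 h7
    exact ⟨h6, h7.trans hs2⟩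
  · have h5 := tendsto_sum_nat_add (fun k => a k * ((M k : ℝ) + 1))
    have h6 := (h5.eventually_lt_const hδ).exists
    obtain ⟨n, hn⟩ := h6
    obtain ⟨R', B, b1, b2⟩ := u6 u n
    refine ⟨pQ Q n, R', B, ?_, b1.per, b1.rng, fun x => ⟨b2.sm x, (b2.le x).trans ?_⟩⟩
    · unfold pQ
      exact Finset.prod_pos fun k _ => hQ0 k
    · refine le_trans (le_of_eq ?_) hn.le
      refine tsum_congr fun k => ?_
      rw [add_comm n k]
  · -- weak disorder
    filter_upwards [hu', ae_restrict_mem measurableSet_Ioc] with t ht htI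
    filter_upwards [hbd, ht] with ω hω h5
    obtain ⟨h6, h7⟩ := h5
    have hT : Op (kq K (t, (u, ω))) = Op (fun x y => kf (d' + 1) x y + tA Ak u x y) +
        Mw 1 (fun x => t * ω x) := by
      have h8 := ((hop _ _ _ (hK u)).2.2.2.1 fun x => t * ω x).2
      rw [hKd] at h8 ⊢
      exact h8
    have hAct : ∀ (v : LL (Lt (d' + 1))) (p : Lt (d' + 1)),
        HamY (tA Ak u) t ω (fun y => v y) p = Op (kq K (t, (u, ω))) v p := by
      intro v p
      rw [hT]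
      exact act2 hop hkact (u1 u) (u2 u) t 1 (by
        rw [abs_of_pos htI.1, abs_one]
        exact htI.2.trans hl1) ω hω v p
    have hsa : IsSelfAdjoint (Op (kq K (t, (u, ω)))) := (hop _ _ _ (ker_kq K hop hK _)).2.2.1.sa
    refine ⟨fun f hf => ?_, fun f m hf hm E hE1 hE2 => ?_, fun p m hm E hE1 hE2 hE3 => ?_⟩
    · obtain ⟨m, hm, -⟩ := spm_exists (Op (kq K (t, (u, ω)))) hsa (lmk f hf)
      exact ⟨m, of_sp _ _ hsa hAct f hf m hm⟩
    · refine h6 _ m (sp_of _ _ hsa hAct f hf m hm) E (hE1.trans ?_) hE2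
      intro y hy
      exact ⟨by linarith [hy.1], by linarith [hy.2]⟩
    · have h8 := sp_of _ _ hsa hAct _ (hdv p) m hm
      have h9 : lmk (fun x => (dv p : LL (Lt (d' + 1))) x) (hdv p) = dv p := rfl
      rw [h9] at h8
      refine h7 p m h8 E (hE1.trans ?_) hE2 hE3
      intro y hy
      exact ⟨by linarith [hy.1], by linarith [hy.2]⟩
  · -- strong disorder
    obtain ⟨S1, hS1⟩ := v2 (1 / 2) (by norm_num)
    obtain ⟨S0, hS0⟩ := (hkact (d' + 1)).2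
    have hs : ∀ x, (Summable fun y => ‖Op (fun x y => kf (d' + 1) x y + tA Ak u x y) (dv y) x‖ ^
          (1 / 2 : ℝ)) ∧
        ∑' y, ‖Op (fun x y => kf (d' + 1) x y + tA Ak u x y) (dv y) x‖ ^ (1 / 2 : ℝ) ≤
          max (S0 + S1) 1 := by
      intro x
      have e1 : ∀ y, ‖Op (fun x y => kf (d' + 1) x y + tA Ak u x y) (dv y) x‖ ^ (1 / 2 : ℝ) ≤
          |kf (d' + 1) x y| ^ (1 / 2 : ℝ) + tA Ak u x y ^ (1 / 2 : ℝ) := by
        intro y
        rw [Op_dv hop (u2 u), Complex.norm_real, Real.norm_eq_abs]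
        have e2 : |kf (d' + 1) x y + tA Ak u x y| ≤ |kf (d' + 1) x y| + tA Ak u x y := by
          refine (abs_add_le _ _).trans ?_
          rw [abs_of_nonneg (v1 x y)]
        refine (Real.rpow_le_rpow (abs_nonneg _) e2 (by norm_num)).trans ?_
        exact Real.rpow_add_le_add_rpow (abs_nonneg _) (v1 x y) (by norm_num) (by norm_num)
      have e3 := (hS0 x).1.add (hS1 x).1
      refine ⟨Summable.of_nonneg_of_le (fun y => by positivity) e1 e3, ?_⟩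
      refine ((Summable.of_nonneg_of_le (fun y => by positivity) e1 e3).tsum_le_tsum e1 e3).trans ?_
      rw [(hS0 x).1.tsum_add (hS1 x).1]
      exact (add_le_add (hS0 x).2 (hS1 x).2).trans (le_max_left _ _)
    obtain ⟨l1, hl1p, hl⟩ := hloc (1 / 2) (max (S0 + S1) 1) D (by norm_num) (by norm_num)
      (lt_max_of_lt_right one_pos) hD
    refine ⟨l1, hl1p, fun lam hlam => ?_⟩
    have hae := hl (Lt (d' + 1)) _ (hop _ _ _ (u2 u)).2.2.1 hs μ hμ hμD lam hlam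
    filter_upwards [hbd, hae] with ω hω h5
    have hAct : ∀ (v : LL (Lt (d' + 1))) (p : Lt (d' + 1)),
        HamY (tA Ak u) lam ω (fun y => v y) p =
          (Op (fun x y => kf (d' + 1) x y + tA Ak u x y) + Mw lam fun x => lam * ω x) v p :=
      fun v p => act2 hop hkact (u1 u) (u2 u) lam lam le_rfl ω hω v p
    have hsa : IsSelfAdjoint (Op (fun x y => kf (d' + 1) x y + tA Ak u x y) +
        Mw lam fun x => lam * ω x) := hsa0.add (Pool.Agent.Y662.TR.Mw_sa _ _)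
    refine ⟨fun f hf => ?_, fun f m hf hm => ?_⟩
    · obtain ⟨m, hm, -⟩ := spm_exists (Op (fun x y => kf (d' + 1) x y + tA Ak u x y) +
        Mw lam fun x => lam * ω x) hsa (lmk f hf)
      exact ⟨m, of_sp _ _ hsa hAct f hf m hm⟩
    · exact h5 _ m (sp_of _ _ hsa hAct f hf m hm)

end Pool.Agent.H987.Y
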