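import Pool.Agent.H987.Y.StA
import Pool.Agent.H987.Z.StA
import Pool.Agent.H987.Z.StB
import Pool.Agent.H987.Z.StC

/-! Project Y, statements, part B (foldings, stages, hull). -/

set_option autoImplicit false

open scoped BigOperators InnerProductSpace Topology
open Filter MeasureTheory

namespace Pool.Agent.H987.Y

open Pool.Agent.Y662.TR (LL Cf Mw dv hu clp)
open Pool.Agent.TH369.AN (Rz)
open Pool.Agent.H987.Z (Rs Gr Fr gZ HV)

/-- **F1 (slabs).** A parametrization `Ψ` of the lattice by base cells `β`, slab indices `i < s0` and residues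
`r` modulo `K`, such that at a point of depth `≥ 1` a step of size `< K` stays in the slab.

Proof (explicit). Choose `m : ℕ` with `2 L + 1 ≤ m`, `2 L ≤ η m`. `rep r k = ((r k).val : ℤ)`, in `[0, K)`.
`cell β i 0 = (β 0 / m) * (m * s0) + i * m + β 0 % m`, `cell β i k = β k` for `k ≠ 0` (integer division and
remainder, `0 ≤ β 0 % m < m`), `Ψ β i r = K • cell β i + rep r`, `N' = K m s0`, `R' = 2 K m s0`,
`dp β = min (β 0 % m) (m - 1 - β 0 % m)` (a natural number). Bijectivity: `Ψ` determines `rep r` (remainder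
modulo `K`) and `cell β i` (quotient), and `c ∈ ℤ` is uniquely `(b / m) (m s0) + i m + b % m`
(`c / (m s0) = b / m`, `(c % (m s0)) / m = i`, `c % m = b % m`). Periodicity: `w 0 = m v 0`,
`w k = m s0 v k`. Step: with `a k = (rep r k + v k) / K ∈ {-1, 0, 1}` one has
`Ψ β i r + v = K • (cell β i + a) + rep (r + v)` and `cell β i + a = cell (β + a) i` because
`0 ≤ β 0 % m + a 0 < m`; `dp` changes by at most one. `B` = the box `L ≤ β 0 ≤ m - 1 - L`,
`0 ≤ β k < m s0` (`k ≠ 0`). Average: `Ψ` maps `B0 × Fin s0 × residues`, `B0` the box `0 ≤ β 0 < m`,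
`0 ≤ β k < m s0`, bijectively onto the box `[0, N')^(d+1)`; the part of `β ∈ B0 \ B` is at most
`(2 L / m) U ≤ η U`, and `1/|B0| ≤ 1/|B|`. -/
def S_tile : Prop :=
  ∀ (d K s0 L : ℕ) [NeZero K] (η : ℝ), 1 ≤ s0 → 0 < η →
    ∃ (N' R' : ℕ) (Ψ : Lt (d + 1) → Fin s0 → (Fin (d + 1) → ZMod K) → Lt (d + 1))
      (dp : Lt (d + 1) → ℕ) (B : Finset (Lt (d + 1))),
      0 < N' ∧ K ∣ N' ∧
      (Function.Bijective fun q : Lt (d + 1) × Fin s0 × (Fin (d + 1) → ZMod K) =>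
        Ψ q.1 q.2.1 q.2.2) ∧
      (∀ β i r k, ((Ψ β i r k : ℤ) : ZMod K) = r k) ∧
      (∀ v : Lt (d + 1), ∃ w : Lt (d + 1), ∀ β i r, Ψ (β + w) i r = Ψ β i r + (N' : ℤ) • v) ∧
      (∀ β i r i' r' k, |Ψ β i r k - Ψ β i' r' k| ≤ (R' : ℤ)) ∧
      (∀ β i r (v : Lt (d + 1)), 1 ≤ dp β → (∀ k, |v k| < (K : ℤ)) →
        ∃ β', Ψ β i r + v = Ψ β' i (fun k => r k + ((v k : ℤ) : ZMod K)) ∧ dp β ≤ dp β' + 1) ∧
      B.Nonempty ∧ (∀ β ∈ B, L ≤ dp β) ∧
      ∀ (f : Lt (d + 1) → ℝ) (U : ℝ), (∀ x, 0 ≤ f x) → (∀ x, f x ≤ U) →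
        (∀ x v : Lt (d + 1), f (x + (N' : ℤ) • v) = f x) →
        ∫ h, f (ph h) ∂(unif (Ph (d + 1) N')) ≤ η * U +
          (∑ β ∈ B, ∑ i : Fin s0, ∑ r : Fin (d + 1) → ZMod K, f (Ψ β i r)) /
            (B.card * (s0 * (K : ℝ) ^ (d + 1)))

/-- **F2 (folding the tree into the lattice).** From `S_tile` and `S_word` (StA.lean of the folder Z; proved in
`Pool.Agent.H383.Z987.Word`).

Proof. `K = N (2 t0 R + 2)`, `C = Multiplicative (Fin (d+1) → ZMod K)`; `Q, ρ, s` from `S_word` for `C`,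
`n + 1` involutions, word length `t0`; `ρ` is injective (words of length 0). `S = Q ⧸ ρ.range` (left cosets),
`Φ = S → Ph (d+1) N`, `s0 = |S × Φ|`, `e : S × Φ ≃ Fin s0`. For `q : Q` let `s(q)` be its coset and
`q = out (s(q)) * ρ (x(q))`, `x(q) ∈ C`; `s(q ρ v) = s(q)`, `x(q ρ v) = x(q) v`. `Ψ, dp, B, N', R'` from `S_tile`
with `L = t0 + 2`. `Ψ' β q φ = Ψ β (e (s(q), φ)) (x(q) + φ(s(q)))` (the phase in `Fin N` cast to `ZMod K`) is a
bijection `Lt × Q × Φ → Lt`. `σ j` is the involution `Ψ' β q φ ↦ Ψ' β (q s_j) φ`; it is `N'`-periodic with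
range `R'`.
For a list `l` let `l^` be the list of the pairs (`u` in `C`, colour `lab (col l') u j`) for the letters
`(u, j) :: l'`. For `X = Ψ' β q φ`, `dp β ≥ t0 + 2` and a good list `l` of order `t0`, by induction on `l`:
`bs σ X l = Ψ' β_l (q * evC ρ s l^) φ` with `dp β_l + l.length ≥ dp β` (one step `+ u` by `S_tile`, `|u| ≤ t0 R <
K`, then `σ`), and for a good vertex `(l, x)`: `pos σ X (l, x) = Ψ' β'' (q * evC ρ s l^ * ρ x) φ`.
`l^` is reduced in the sense `RedC`, since `lab c 0 j = swap 0 c j ≠ c` for `j ≠ 0`. Injectivity: if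
`pos σ X (l, x) = pos σ X (l', x')` then `evC ρ s l^ * ρ x = evC ρ s l'^ * ρ x'`, so `l^ = l'^` and `x = x'`
in `C`; as the coordinates are at most `t0 R` in absolute value and `2 t0 R < K`, `x = x'` and (recovering the
labels from the colours) `l = l'`.
Phases: let `q_l = q * evC ρ s l^`. Different good lists `l` have different cosets `s(q_l)` (same argument), and
`bs σ X l ≡ x(q_l) + φ(s(q_l))` modulo `K`, hence modulo `N`. Given `q` choose an injection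
`ι : S → List (Ix ..)` with `ι (s(q_l)) = l` for all good `l` of order `t0` (the other cosets go to different
lists of length `> t0`), and for `p : List → Ph (d+1) N` put `φ s = p (ι s) - x(q_l)` modulo `N` if `s = s(q_l)`
with `l` good, `φ s = p (ι s)` for the other `s`. Then `bs σ X l ≡ p l` modulo `N` for good `l`, and `φ` is
uniformly distributed in `Φ` if `p` has the product law. `Γ = B × Q`, `Θ (β, q) p = Ψ' β q φ`. Since
`∑_{i, r} f (Ψ β i r) = ∑_{q, φ} f (Ψ' β q φ) = |Φ| ∑_q ∫ f (Θ (β, q) p) dp` and `s0 K^(d+1) = |Q| |Φ|`, the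
average in `S_tile` is the one claimed. -/
def S_fold : Prop :=
  ∀ (d N R t0 n : ℕ) (η : ℝ), 1 ≤ N → 0 < η →
    ∃ (N' R' : ℕ) (σ : Fin (n + 1) → Lt (d + 1) → Lt (d + 1)) (Γ : Type) (_ : Fintype Γ)
      (Θ : Γ → (List (Ix (Lt (d + 1)) n) → Ph (d + 1) N) → Lt (d + 1)),
      0 < N' ∧ N ∣ N' ∧ Nonempty Γ ∧ (∀ j x, σ j (σ j x) = x) ∧
      (∀ j x (v : Lt (d + 1)), σ j (x + (N' : ℤ) • v) = σ j x + (N' : ℤ) • v) ∧
      (∀ j x i, |σ j x i - x i| ≤ (R' : ℤ)) ∧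
      (∀ γ, Measurable (Θ γ)) ∧
      (∀ γ p, Set.InjOn (pos σ (Θ γ p)) {v | gV R t0 v}) ∧
      (∀ γ p l, gL R t0 l → ∃ w : Lt (d + 1), bs σ (Θ γ p) l = ph (p l) + (N : ℤ) • w) ∧
      ∀ (f : Lt (d + 1) → ℝ) (U : ℝ), (∀ x, 0 ≤ f x) → (∀ x, f x ≤ U) →
        (∀ x v : Lt (d + 1), f (x + (N' : ℤ) • v) = f x) →
        ∫ h, f (ph h) ∂(unif (Ph (d + 1) N')) ≤ η * U +
          (∑ γ, ∫ p, f (Θ γ p) ∂(Measure.infinitePi fun _ : List (Ix (Lt (d + 1)) n) =>
            unif (Ph (d + 1) N))) / (Fintype.card Γ : ℝ)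

/-- **N1 (from the tree to the next network).** From `S_op, S_eqv, S_meas, S_troot, S_sep, S_cov, S_fold` and
`S_green, S_mom, S_hutri` (folder Z; proofs `Pool.Agent.H304.Z987.Green`, `Pool.Agent.H784.Z987.Mom`,
`Pool.Agent.H284.Z987.Hutri`). Compare `S_rst` (StD.lean; proof `Pool.Agent.H582.Z987.Rst`).

Proof. `h = h0 + |a| (n + 2) + 1` bounds all the operators involved. For `z` in the strip all Green functions
have imaginary part `≥ κ0 = θ/(h + ρ)²`, `ρ = |α| + |β| + 1`, modulus `≤ 1/θ`; so `hu(G, g z)² ≤ U`, `U` depending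
only on `θ, h, ρ, c, C`. `K` from `S_hutri` for `ε/2`; `δ` with `2 K (δ²/κ0²)² ≤ ε/4`-like; `t0` from `S_mom` for
`θ, ρ, h, δ`; `η` with `η U ≤ ε/4`; `N', R', σ, Γ, Θ` from `S_fold`. The kernel `a kσ σ` is symmetric
(involutions), periodic, of range `R'`, row sums `|a| (n + 1)`. Let `t' = t + a kσ σ` and
`f(X) = ∫_V hu(Gr (Op (t' + dg V)) z X X, g z)²`, which is `N'`-periodic (translation of the potential:
`S_eqv` and the invariance of the product measure under permutations of the sites), and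
`∫ hu(Gr (Op (kN t' ω)) z 0 0, g z)² dPO = ∫_h f(ph h)` (the same translation). For fixed `γ, p`: `X = Θ γ p`,
choose an injection `ς : Lt (d+1) → Vt` with `ς (pos σ X v) = v` for good `v` of order `t0` (`ς y =
(List.replicate (t0+1) (0, 0), y)` for the other `y`); the law of `𝒱 ∘ ς`, `𝒱 : Vt → ℝ` iid, is iid
(`map_inj` in `Pool.Agent.H582.Z987.Rst`), and by `S_cov` and `S_mom` the Green function
`Gr (Op (t' + dg (𝒱 ∘ ς))) z X X` is `δ`-close to `GB (kN t) true 0 a W z` with `W l = (p l, 𝒱 (l, ·))`. So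
`f (Θ γ p) ≤ ∫_𝒱 ((1 + ε/2) hu(GB, g z)² + K hu(.., GB)² (1 + hu(GB, g z)²))`; integrate over `p`:
by `S_sep` the law of `W` is the product measure, so the average over `p` is at most
`(1 + ε/2) e + (ε/4)(1 + e)`. With the average formula of `S_fold` the sum is at most `(1 + ε) e + ε`. -/
def S_net : Prop :=
  ∀ (d : ℕ) (g : ℂ → ℂ) (α β c C : ℝ), Fr g α β c C → ∀ θ ε : ℝ, 0 < θ → θ ≤ 1 → 0 < ε → ε ≤ 1 →
    ∀ (N R n : ℕ) (t : Lt (d + 1) → Lt (d + 1) → ℝ) (a h0 : ℝ), 1 ≤ N → Net N R h0 t →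
    ∃ (N' R' : ℕ) (σ : Fin (n + 1) → Lt (d + 1) → Lt (d + 1)), 0 < N' ∧ N ∣ N' ∧
      (∀ j x, σ j (σ j x) = x) ∧ Net N' R' (|a| * (n + 1)) (fun x y => a * kσ σ x y) ∧
      ∀ (ν : Measure ℝ) [IsProbabilityMeasure ν] (e : ℝ), 0 ≤ e → e ≤ 1 →
        (∀ z : ℂ, α ≤ z.re → z.re ≤ β → θ ≤ z.im → z.im ≤ 1 →
          ∫ W, hu (GB (kN (N := N) t) true 0 a W z) (g z) ^ 2
            ∂(Measure.infinitePi fun _ : List (Ix (Lt (d + 1)) n) => PO (d + 1) N ν) ≤ e) →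
        PN N' (fun x y => t x y + a * kσ σ x y) ν g α β θ 1 ((1 + ε) * e + ε)

/-- **N2 (comparison with the free operator at a fixed distance from the real axis).** Compare `S_close`
(StD.lean; proof `Pool.Agent.H284.Z987.Close`). From `S_op, S_meas, S_troot, S_free, S_green`.

Proof. If `Ker δ' (k ω - kf)` then `‖Op (k ω) - Op (kf d)‖ ≤ δ'`, and for the tree, if this holds for all
`W l` (almost surely), `‖Op (kB k f 0 a W) - Op (kB (fun _ => kf d) f 0 0 W)‖ ≤ δ' + |a| (n + 2)`, while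
`GB (fun _ => kf d) f 0 0 W z = Gr (Op (kf d)) z 0 0 = gZ d z` (the root sheet equation of `S_troot` with
`a = 0`, and `rz_uniq`). Then as in `Close`. -/
def S_closek : Prop :=
  ∀ (d : ℕ) (α β c C : ℝ), Fr (gZ d) α β c C → ∀ θ η : ℝ, 0 < θ → 0 < η → ∃ δ : ℝ, 0 < δ ∧
    ∀ (Ω : Type) [MeasurableSpace Ω] (P : Measure Ω) [IsProbabilityMeasure P]
      (k : Ω → Lt d → Lt d → ℝ) (h δ' : ℝ), (∀ ω, Ker h (k ω)) →
      (∀ x y, Measurable fun ω => k ω x y) →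
      (∀ᵐ ω ∂P, Ker δ' fun x y => k ω x y - kf d x y) →
      ∀ z : ℂ, α ≤ z.re → z.re ≤ β → θ ≤ z.im → z.im ≤ 2 →
        (δ' ≤ δ → ∫ ω, hu (Gr (Op (k ω)) z 0 0) (gZ d z) ^ 2 ∂P ≤ η) ∧
        ∀ (n : ℕ) (a : ℝ), δ' + |a| * (n + 2) ≤ δ → ∀ f : Bool,
          ∫ W, hu (GB k f 0 a W z) (gZ d z) ^ 2
            ∂(Measure.infinitePi fun _ : List (Ix (Lt d) n) => P) ≤ η

/-- **N3 (bootstrap for sheets with kernels).** This is `S_boot` (StD.lean) for the tree of sheets with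
kernels `k (W l)`, `W l` iid with law `P`. PORT of `one_step` (Z/D1.lean), `improve` (Z/D2.lean) and
`Pool.Agent.H539.Z987.Boot`: replace `G` by `X`, `1 : G` by `o`, `GS b V z` by `Gr (Op (k ω)) z o o`,
`HV (KT b) v` by `Op (k ω)`, `GB b a τ V z` by `GB k f o a W z` (`τ = tr` is `f = false`, `τ = tf` is
`f = true`), the product measure over `G` by `P`, over `Vt G n` by the product over `List (Ix X n)`,
`S_tree, S_root` by `S_troot`, `S_split` by `S_tsplit`, the measurability from continuity (`bd_gr`) by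
`S_meas`. -/
def S_bootk : Prop :=
  ∀ (g : ℂ → ℂ) (α' β' c C ε κ : ℝ), Fr g α' β' c C → 0 < ε → ε ≤ 1 → 0 < κ → α' ≤ β' →
    ∃ M0 : ℕ, ∃ l0 : ℝ, 0 < l0 ∧ ∀ (α β : ℝ), α' + κ ≤ α → β + κ ≤ β' →
      ∀ (X Ω : Type) [Countable X] [MeasurableSpace Ω] (P : Measure Ω) [IsProbabilityMeasure P]
        (o : X) (n : ℕ) (k : Ω → X → X → ℝ) (h : ℝ), M0 ≤ n + 1 → (∀ ω, Ker h (k ω)) →
        (∀ x y, Measurable fun ω => k ω x y) →
      ∀ a : ℝ, 0 < a → a ^ 2 * (n + 1) ≤ l0 →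
      ∀ e : ℝ, 0 ≤ e → (1 + ε) * e + ε ≤ 1 / 200 →
      PK k P o g α' β' (a ^ 2 * (n + 1) * (c / 2)) 2 e →
      (∀ z : ℂ, α ≤ z.re → z.re ≤ β → z.im = 1 →
        ∫ W, hu (GB k false o a W z) (g z) ^ 2
          ∂(Measure.infinitePi fun _ : List (Ix X n) => P) ≤ 1 / 100) →
      ∀ z : ℂ, α ≤ z.re → z.re ≤ β → 0 < z.im → z.im ≤ 1 → ∀ f : Bool,
        ∫ W, hu (GB k f o a W z) (g z) ^ 2
          ∂(Measure.infinitePi fun _ : List (Ix X n) => P) ≤ (1 + ε) * e + ε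

/-- **H1 (the limit kernels).** Elementary. `hd (k+1) u` and `hd n u` differ by a multiple of `pQ Q (k+1)` for
`k < n`, and `A k` is `pQ Q (k+1)`-periodic. -/
def S_hullA : Prop :=
  ∀ (d : ℕ) (Q : ℕ → ℕ) (A : ℕ → Lt d → Lt d → ℝ) (b : ℕ → ℝ) (R : ℕ → ℕ), (∀ k, 0 < Q k) →
    (∀ k, Net (pQ Q (k + 1)) (R k) (b k) (A k)) → Summable b →
    (∀ u : Hu d Q, Ker (∑' k, b k) (tA A u)) ∧
    (∀ u : Hu d Q, Ker (4 * d + ∑' k, b k) fun x y => kf d x y + tA A u x y) ∧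
    (∀ x y, Measurable fun u : Hu d Q => tA A u x y) ∧
    (∀ n, ∃ R', Net (pQ Q n) R' (4 * d + ∑ k ∈ Finset.range n, b k) (tn A n)) ∧
    (∀ (u : Hu d Q) (n : ℕ), Ker (∑' k, b (n + k)) fun x y =>
      kf d x y + tA A u x y - tn A n (x + hd n u) (y + hd n u)) ∧
    (∀ (u : Hu d Q) (n : ℕ), ∃ (R' : ℕ) (B : Lt d → Lt d → ℝ),
      Net (pQ Q n) R' (∑ k ∈ Finset.range n, b k) B ∧
      Ker (∑' k, b (n + k)) fun x y => tA A u x y - B x y)

/-- **H2 (the limit of the bounds).** From `S_hullA, S_dig, S_eqv, S_meas, S_op, S_green, S_sep`.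

Proof. Let `F(X) = ∫_V hu(Gr (Op (tn A n + dg V)) z X X, g)²`, a `pQ Q n`-periodic function (`S_eqv`, and
the product measure is invariant under translations of the potential, `map_inj` in
`Pool.Agent.H582.Z987.Rst`). The hypothesis says that the average of `F` over the phases is at most `e` for
large `n`. By `S_dig` and `S_eqv`: `∫∫ hu(Gr (Op (tn A n (· + hd n u) (· + hd n u) + dg V)) z x x, g)² =
∫_u F(hd n u + x) = ∫_h F(ph h) ≤ e`, and the Green functions differ from those of the limit kernel by at most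
`(∑' k, b (n + k))/(Im z)²`, uniformly in `u, V`; all have imaginary part bounded below and modulus bounded
above; let `n → ∞` (compare `Pool.Agent.H284.Z987.Lim`). -/
def S_hullB : Prop :=
  ∀ (d : ℕ) (Q : ℕ → ℕ) (A : ℕ → Lt d → Lt d → ℝ) (b : ℕ → ℝ) (R : ℕ → ℕ), (∀ k, 0 < Q k) →
    (∀ k, Net (pQ Q (k + 1)) (R k) (b k) (A k)) → Summable b →
    ∀ (ν : Measure ℝ) [IsProbabilityMeasure ν] (z g : ℂ) (e : ℝ), 0 < z.im → 0 < g.im →
      (∀ᶠ n in atTop, ∫ ω, hu (Gr (Op (kN (N := pQ Q n) (tn A n) ω)) z 0 0) g ^ 2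
        ∂(PO d (pQ Q n) ν) ≤ e) →
      ∀ x : Lt d, ∫ q : Hu d Q × (Lt d → ℝ),
        hu (Gr (Op fun y y' => kf d y y' + tA A q.1 y y' + dg q.2 y y') z x x) g ^ 2
          ∂((PH d Q).prod (Measure.infinitePi fun _ : Lt d => ν)) ≤ e

end Pool.Agent.H987.Y
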